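import Pool.Agent.V11278.Rect.Corner

/-!
# Corner-free sets and congruence modular varieties

`A ⊆ G × G` is corner-free, `G` a finite abelian group, for example `F_2^n`.  Suppose that the three
copies of `G` carry arbitrary algebra structures (not related to the addition of `G`) with directed
Gumm operations `d 0, …, d (L - 1), q`, `L` arbitrary, such that the relation
`{(x, y, x + y) : (x, y) ∈ A}` is closed under the componentwise operations.  Then `|A|² ≤ |G|³`.
So for `G = F_2^n` we have `|A| ≤ 4^{(1 - 1/4) n}`, uniformly in `L` and in the operations.  The bound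
is attained for every `G = K × K` (for `L = 0`, `q a b c = a - b + c`).

By a theorem of Kazda, Kozik, McKenzie and Moore the algebras of a variety have directed Gumm terms
for some `L` if and only if the variety is congruence modular.  For `L = 0` the operation `q` is a
Maltsev operation (groups, rings, quasigroups); operations with `q a b c = c` are directed Jónsson
operations (lattices, median algebras, near-unanimity operations).

Proof.  Two triples of the relation with two equal coordinates are equal.  Let `x, x'` be two common
neighbours of `y` and `z`.  The directed Gumm operations lead from `x` to `w = q x x' x'` by steps which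
keep `y` and a third coordinate, so all steps are trivial if `w = x'`.  The vertex `w` dominates `x'`;
if `x'` is maximal, `w` and `x'` have the same neighbours, and then `w = x'`, since otherwise there is
a corner.  So `y` and `z` have at most one common neighbour, and `∑ |A_x|² ≤ |G|²` for the rows `A_x`.
-/

set_option autoImplicit false

namespace Pool.Agent.Results.MP_db4732_co.CongruenceModular

open Finset Pool.Agent.V11278.Rect

theorem result :
    -- (1) the bound, for every finite abelian group
    (∀ (G : Type) [AddCommGroup G] [Fintype G] [DecidableEq G] (L : ℕ)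
      (dX dY dZ : ℕ → G → G → G → G) (qX qY qZ : G → G → G → G) (A : Finset (G × G)),
      CornerFree A → DirectedGumm L dX qX → DirectedGumm L dY qY → DirectedGumm L dZ qZ →
      (∀ l < L, ClosedUnder (dX l) (dY l) (dZ l) (triples A)) →
      ClosedUnder qX qY qZ (triples A) → A.card ^ 2 ≤ Fintype.card G ^ 3) ∧
    -- (2) the power-saving bound for `F_2^n`
    (∀ (n L : ℕ) (dX dY dZ : ℕ → (Fin n → ZMod 2) → (Fin n → ZMod 2) → (Fin n → ZMod 2) →
        (Fin n → ZMod 2))
      (qX qY qZ : (Fin n → ZMod 2) → (Fin n → ZMod 2) → (Fin n → ZMod 2) → (Fin n → ZMod 2))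
      (A : Finset ((Fin n → ZMod 2) × (Fin n → ZMod 2))),
      CornerFree A → DirectedGumm L dX qX → DirectedGumm L dY qY → DirectedGumm L dZ qZ →
      (∀ l < L, ClosedUnder (dX l) (dY l) (dZ l) (triples A)) →
      ClosedUnder qX qY qZ (triples A) → (A.card : ℝ) ≤ (4 : ℝ) ^ ((1 - 1 / 4 : ℝ) * n)) ∧
    -- (3) the bound is attained for every group `K × K`
    (∀ (K : Type) [AddCommGroup K] [Fintype K] [DecidableEq K],
      ∃ A : Finset ((K × K) × (K × K)), CornerFree A ∧
        A.card ^ 2 = Fintype.card (K × K) ^ 3 ∧
        DirectedGumm 0 (fun _ a _ _ => a) (fun a b c : K × K => a - b + c) ∧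
        ClosedUnder (fun a b c : K × K => a - b + c) (fun a b c => a - b + c)
          (fun a b c => a - b + c) (triples A)) := by
  refine ⟨?_, ?_, ?_⟩
  · intro G _ _ _ L dX dY dZ qX qY qZ A hA hX hY hZ hd hq
    exact corner hA hX hY hZ hd hq
  · intro n L dX dY dZ qX qY qZ A hA hX hY hZ hd hq
    have h := corner hA hX hY hZ hd hq
    have hc : Fintype.card (Fin n → ZMod 2) = 2 ^ n := by simp
    rw [hc] at h
    have h1 : (A.card : ℝ) ^ 2 ≤ ((4 : ℝ) ^ ((1 - 1 / 4 : ℝ) * n)) ^ 2 := by
      have e1 : ((4 : ℝ) ^ ((1 - 1 / 4 : ℝ) * n)) ^ 2 = ((2 : ℝ) ^ n) ^ 3 := by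
        have e2 : (4 : ℝ) = (2 : ℝ) ^ (2 : ℝ) := by norm_num
        rw [e2, ← Real.rpow_mul (by norm_num), ← Real.rpow_natCast, ← Real.rpow_mul (by norm_num),
          ← Real.rpow_natCast, ← Real.rpow_natCast, ← Real.rpow_mul (by norm_num)]
        congr 1
        push_cast
        ring
      rw [e1]
      exact_mod_cast h
    exact le_of_sq_le_sq h1 (by positivity)
  · intro K _ _ _
    refine ⟨grp K, grp_cornerFree, ?_, maltsev_gumm _, grp_closed⟩
    rw [grp_card, Fintype.card_prod]
    ring

end Pool.Agent.Results.MP_db4732_co.CongruenceModular
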