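import Pool.Agent.Helper12.LocGraph

/-!
# Corner-free sets given by formulas of depth three

We consider the subsets `A` of `(F_p ^ n) ^ 2` which are unions of `M` sets, each given by the
conjunction of an arbitrary family of constraints of width `k`; a constraint of width `k` is a
condition on the pair `(x, y)` which depends only on the values of `k` linear forms over `F_p` in the
`2 n` coordinates of `x` and `y`. (Formulas of depth three with fan-in `k` at the bottom, for
`p = 2` also with parities at the bottom; the number of constraints is not bounded.)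

There is `γ = γ (p, k) > 0` such that the corner-free sets of this kind have at most
`C M (p ^ n) ^ (2 - γ / 2)` elements: a power-saving bound, even for `M` up to `(p ^ n) ^ (γ / 4)`. The
question is the case `p = 2`.

Proof. A conjunction of constraints of width `k` with density larger than `(1 - p ^ (- k)) ^ T`
contains an affine subspace of codimension at most `T k (k + 1) / 2`: choose constraints greedily whose
forms are linearly independent modulo the forms already used; there are less than `T` of them, so
on each coset of the common kernel of at most `k T` forms all constraints have width `k - 1`; pass to the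
densest coset. An affine subspace of codimension less than `n / 2` contains a corner.
-/

set_option autoImplicit false

namespace Pool.Agent.Results.MP_db4732_co.DepthThreeFormulas

open Finset Pool.Agent.Helper12.LocBic

/-- The vectors with `m` coordinates in `F_p`. -/
abbrev Vert (p m : ℕ) : Type := Fin m → ZMod p

/-- A constraint of width `k` on pairs of vectors: a condition `φ` which depends only on the values
of `k` linear forms in the `2 m` coordinates. -/
def IsConstraint (p k m : ℕ) (φ : Vert p m × Vert p m → Prop) : Prop :=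
  ∃ l : Fin k → (Vert p m × Vert p m →ₗ[ZMod p] ZMod p),
    ∀ z z', (∀ i, l i z = l i z') → (φ z ↔ φ z')

/-- A conjunction of an arbitrary family `Φ` of constraints of width `k`. -/
def IsConj (p k m : ℕ) (F : Vert p m × Vert p m → Prop) : Prop :=
  ∃ Φ : Set (Vert p m × Vert p m → Prop), (∀ φ ∈ Φ, IsConstraint p k m φ) ∧
    ∀ z, F z ↔ ∀ φ ∈ Φ, φ z

/-- `A` is the union of `M` sets, each given by a conjunction of constraints of width `k`. -/
def GivenBy (p k m M : ℕ) (A : Finset (Vert p m × Vert p m)) : Prop :=
  ∃ F : Fin M → Vert p m × Vert p m → Prop, (∀ i, IsConj p k m (F i)) ∧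
    ∀ q, q ∈ A ↔ ∃ i, F i q

/-- `A` contains no nontrivial corner. -/
def CornerFree {p m : ℕ} (A : Finset (Vert p m × Vert p m)) : Prop :=
  ∀ x y z : Vert p m, (x, y) ∈ A → (x, y + z) ∈ A → (x + z, y) ∈ A → z = 0

/-- The exponent `γ (p, k) = log (p ^ k / (p ^ k - 1)) / ((k (k + 1) / 2) log p) > 0`. -/
noncomputable def γ (p k : ℕ) : ℝ :=
  Real.log ((p : ℝ) ^ k / ((p : ℝ) ^ k - 1)) / ((k * (k + 1) / 2 : ℕ) * Real.log p)

/-- Let `p` be prime and `k ≥ 1`. (1) A corner-free subset of `(F_p ^ n) ^ 2` which is the union of `M`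
sets given by conjunctions of constraints of width `k` has at most `C M (p ^ n) ^ (2 - γ / 2)`
elements, `C = p ^ k / (p ^ k - 1) p ^ (γ / 2)`. (2) `γ > 0`. -/
theorem result :
    (∀ p k n M : ℕ, p.Prime → 1 ≤ k → ∀ A : Finset (Vert p n × Vert p n), GivenBy p k n M A →
      CornerFree A → (A.card : ℝ) ≤
        (p : ℝ) ^ k / ((p : ℝ) ^ k - 1) * (p : ℝ) ^ (γ p k / 2) * M *
          ((p : ℝ) ^ n) ^ (2 - γ p k / 2)) ∧
    (∀ p k : ℕ, p.Prime → 1 ≤ k → 0 < γ p k) := by
  refine ⟨?_, fun p k hp hk => gam_pos hp hk⟩
  intro p k n M hp hk A hA hfree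
  have : Fact p.Prime := ⟨hp⟩
  obtain ⟨F, hF, hAF⟩ := hA
  have h := corner_bound hk A F hF hAF (by
    rintro ⟨x, y, z, hz, h1, h2, h3⟩
    exact hz (hfree x y z h1 h2 h3))
  have hexp : Real.exp (lam p k) = (p : ℝ) ^ k / ((p : ℝ) ^ k - 1) := by
    have h2 : (2 : ℝ) ≤ (p : ℝ) ^ k := by
      have h1 : 2 ≤ p ^ k := by
        calc 2 ≤ p := hp.two_le
          _ = p ^ 1 := (pow_one p).symm
          _ ≤ p ^ k := Nat.pow_le_pow_right hp.pos hk
      exact_mod_cast h1
    rw [lam, Real.exp_log]
    apply div_pos <;> linarith
  rw [hexp, pow_one] at h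
  refine h.trans (le_of_eq ?_)
  show (M : ℝ) * ((p : ℝ) ^ k / ((p : ℝ) ^ k - 1) * (p : ℝ) ^ (γ p k / 2) *
    ((p : ℝ) ^ n) ^ (2 - γ p k / 2)) = _
  ring

end Pool.Agent.Results.MP_db4732_co.DepthThreeFormulas
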