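import Mathlib
import Pool.Agent.H281C.Bound

/-!
# Corner-free sets decided by exponentially many unbounded conjunctions of low degree conditions

Power-saving bounds for the corner-free sets `A ⊆ (F_2^n)^2` each of whose rows (or columns, or
diagonals) is a union of `2 ^ (c n)` sets which are decided by a Boolean function of `q` weighted
sums modulo `p` of `2 ^ (c n)` conjunctions, each of an arbitrary number of conditions of degree at
most `k` over `Z/p`. For `p = 2`: exclusive ors of exponentially many affine subspaces or varieties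
of degree at most `k`, `k`-CNFs with any number of clauses, parity decision trees of any depth with
`2 ^ (c n)` leaves, and so on.

Proof. The indicator function of a variety (the common zeros of arbitrarily many polynomials of
degree at most `k`) agrees off `2 ^ (n - t)` points with a product of `t` random factors
`1 - (∑ w_i Q_i) ^ (p - 1)`. So the indicator function of a set `S` of the class is a polynomial of
degree `t q (p - 1)² k` off a set `E` of `N 2 ^ (n - t)` points. A polynomial `h` of degree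
`n / 2 - β n` which vanishes on `E` and at few points outside of `E` is multiplied to it; with
`t = τ n` and `τ`, `β` small the product has degree less than `(1 / 2 - β / 2) n`, it is supported
in `S` and its support contains about half of `S`. A matrix over a field supported in a corner-free
set has at most `2 ^ n` times its rank nonzero entries.
-/

namespace Pool.Agent.Results.MP_db4732_co.ModSumsOfVarieties

open Pool.Agent.W856.Corner Pool.Agent.H281C

/-- Let `p` be a prime, `k, q, N ≥ 1` and `M = q (p - 1)² k`. A set `S` of bit strings is in the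
class `ModSum p k q N` if it is decided by an arbitrary function of `q` weighted sums modulo `p` of
the indicator functions of `N` varieties, i.e. sets of common zeros on the cube of arbitrarily many
polynomials of degree at most `k` over `Z/p`.

(1) If every row (or every column, or every diagonal) of the corner-free set `A ⊆ (F_2^n)^2` is a
union of `T` sets of this class, or `A` itself is a union of `T` sets of this class (on `2 n` bits),
then `|A| ≤ 40000 T N M² 4^n exp (- n / (12800 M²))`.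

(2) For all `p`, `k`, `q` there are `c > 0` and `C` such that `|A| ≤ C 4 ^ ((1 - c) n)` if moreover
`T, N ≤ 4 ^ (c n)`. -/
theorem result :
    (∀ p k q N T n : ℕ, p.Prime → 1 ≤ k → 1 ≤ q → 1 ≤ N → ∀ A : Finset (V n × V n),
      CornerFree A →
      ((∃ L : V n → Set (V n), IsLines A L ∧
        ∀ s, ∃ F : Fin T → Set (V n), (∀ i, ModSum p k q N (F i)) ∧ L s = ⋃ i, F i) ∨
      (∃ F : Fin T → Set (V (n + n)), (∀ i, ModSum p k q N (F i)) ∧
        ∀ x y, (x, y) ∈ A ↔ ∃ i, Fin.append x y ∈ F i)) →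
      (A.card : ℝ) ≤ 40000 * (T * N) * ((q * (p - 1) ^ 2 * k : ℕ) : ℝ) ^ 2 * 4 ^ n *
        Real.exp (-(n : ℝ) / (12800 * ((q * (p - 1) ^ 2 * k : ℕ) : ℝ) ^ 2))) ∧
    (∀ p k q : ℕ, p.Prime → 1 ≤ k → 1 ≤ q → ∃ c : ℝ, 0 < c ∧ ∃ C : ℝ, ∀ N T n : ℕ, 1 ≤ N →
      (N : ℝ) ≤ (4 : ℝ) ^ (c * n) → (T : ℝ) ≤ (4 : ℝ) ^ (c * n) → ∀ A : Finset (V n × V n),
      CornerFree A →
      ((∃ L : V n → Set (V n), IsLines A L ∧
        ∀ s, ∃ F : Fin T → Set (V n), (∀ i, ModSum p k q N (F i)) ∧ L s = ⋃ i, F i) ∨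
      (∃ F : Fin T → Set (V (n + n)), (∀ i, ModSum p k q N (F i)) ∧
        ∀ x y, (x, y) ∈ A ↔ ∃ i, Fin.append x y ∈ F i)) →
      (A.card : ℝ) ≤ C * (4 : ℝ) ^ ((1 - c) * n)) := by
  have key : ∀ p k q N T n : ℕ, p.Prime → 1 ≤ k → 1 ≤ q → 1 ≤ N → ∀ A : Finset (V n × V n),
      CornerFree A →
      ((∃ L : V n → Set (V n), IsLines A L ∧
        ∀ s, ∃ F : Fin T → Set (V n), (∀ i, ModSum p k q N (F i)) ∧ L s = ⋃ i, F i) ∨
      (∃ F : Fin T → Set (V (n + n)), (∀ i, ModSum p k q N (F i)) ∧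
        ∀ x y, (x, y) ∈ A ↔ ∃ i, Fin.append x y ∈ F i)) →
      (A.card : ℝ) ≤ 40000 * (T * N) * ((q * (p - 1) ^ 2 * k : ℕ) : ℝ) ^ 2 * 4 ^ n *
        Real.exp (-(n : ℝ) / (12800 * ((q * (p - 1) ^ 2 * k : ℕ) : ℝ) ^ 2)) := by
    intro p k q N T n hp hk hq hN A hA h
    have hM : q * (p - 1) ^ 2 * k = q * ((p - 1) * ((p - 1) * k)) := by ring
    rw [hM]
    rcases h with ⟨L, hL, h⟩ | h
    · exact modSum_bound hp hk hq hN A hA L hL h
    · exact modSum_bound' hp hk hq hN A hA h
  refine ⟨key, fun p k q hp hk hq => ?_⟩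
  set M : ℝ := ((q * (p - 1) ^ 2 * k : ℕ) : ℝ) with hM
  have hM1 : 1 ≤ M := by
    have h2 := hp.two_le
    have h3 : 1 ≤ q * (p - 1) ^ 2 * k :=
      Nat.mul_pos (Nat.mul_pos hq (pow_pos (by omega) 2)) hk
    rw [hM]
    exact_mod_cast h3
  have hl4 : 0 < Real.log 4 := Real.log_pos (by norm_num)
  set a : ℝ := 1 / (12800 * M ^ 2 * Real.log 4) with ha
  have ha0 : 0 < a := by positivity
  refine ⟨a / 3, by positivity, 40000 * M ^ 2, fun N T n hN hN' hT' A hA h => ?_⟩
  have h1 := key p k q N T n hp hk hq hN A hA h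
  rw [← hM] at h1
  have hexp : Real.exp (-(n : ℝ) / (12800 * M ^ 2)) = (4 : ℝ) ^ (-(a * n)) := by
    rw [Real.rpow_def_of_pos (by norm_num)]
    congr 1
    rw [ha]
    field_simp
  rw [hexp] at h1
  have h2 : ((T : ℝ) * N) ≤ (4 : ℝ) ^ (a / 3 * n) * (4 : ℝ) ^ (a / 3 * n) :=
    mul_le_mul hT' hN' (Nat.cast_nonneg _) (by positivity)
  have h3 : (4 : ℝ) ^ ((1 - a / 3) * n) =
      ((4 : ℝ) ^ (a / 3 * n) * (4 : ℝ) ^ (a / 3 * n)) * 4 ^ n * (4 : ℝ) ^ (-(a * n)) := by
    rw [← Real.rpow_natCast, ← Real.rpow_add (by norm_num), ← Real.rpow_add (by norm_num),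
      ← Real.rpow_add (by norm_num)]
    congr 1
    ring
  calc (A.card : ℝ) ≤ _ := h1
    _ = 40000 * M ^ 2 * (((T : ℝ) * N) * 4 ^ n * (4 : ℝ) ^ (-(a * n))) := by ring
    _ ≤ 40000 * M ^ 2 * (((4 : ℝ) ^ (a / 3 * n) * (4 : ℝ) ^ (a / 3 * n)) * 4 ^ n *
        (4 : ℝ) ^ (-(a * n))) := by gcongr
    _ = _ := by rw [h3]

end Pool.Agent.Results.MP_db4732_co.ModSumsOfVarieties
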