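import Pool.Agent.V11163.LF.Cor

/-!
# Corner-free sets recognized by tree tensor networks

A tree tensor network `Net K (Fin n) (G × G) W` (`Pool/Agent/TH700/PA/Defs.lean`) reads a point `(x, y)` of
`(G ^ n) ^ 2`: its leaves read one pair `(x_i, y_i)` each (with a vector in `K ^ W` for each value of the
pair); an inner node combines the vectors of its two children by an arbitrary bilinear map; the value is
a linear form of the vector of the root. The field `K`, the weights, the tree and the order of the pairs
are arbitrary, so there may be cancellations; the bond dimension is `card W`. The network recognizes the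
set of the points with a nonzero value (`Recog w`: a network of bond dimension at most `w` that reads
every pair at most once recognizes the set; `Pairs A` is `A` as a set of words of pairs).

**Theorem.** (1) For every nontrivial finite abelian group `G` and every `w` there are `c, C > 0` such
that every corner-free union of `M` recognized sets (bond dimension at most `w`) has at most
`C M (|G| ^ (2 n)) ^ (1 - c)` elements; for `G = F_2` this is a power saving `C M 4 ^ ((1 - c) n)`. (2) The
same holds (with `c, C` depending on `m`, too) if the union contains no complete `m`-dimensional pattern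
`{(x + a_1 v_1 + ... + a_m v_m, y + b_1 v_1 + ... + b_m v_m) : a_j, b_j ∈ G}`, where `v_1, ..., v_m` are
indicator vectors of disjoint sets of coordinates; such a pattern contains corners and squares.
(3) It is enough that the function `f` with `A = {f ≠ 0}` has rank at most `d` for many partitions of the
`n` pairs of coordinates into a block of at least `N` pairs and the others: if there are `t` disjoint
such blocks, then `s ^ t |A| ≤ |G| ^ (2 n)`, where `N` depends on `G, m, d, s` only.

**Proof.** If `f` has rank at most `d` for the block `P`, then the words on `P` that can be completed to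
an element of `A` are covered by `d` sections of `A` (interpolation). The sections contain no
combinatorial subspace, so they have density at most `1 / (s d)` by the density Hales-Jewett theorem
(library). The blocks are independent. A tree tensor network has many such blocks.
-/

set_option autoImplicit false

open Finset

namespace Pool.Agent.Results.MP_db4732_co.TensorNetworks

open Pool.Agent.V11163.LF
open Pool.Agent.TH700.PA (Net Rk)

theorem result (G : Type) [AddCommGroup G] [Fintype G] [Nontrivial G] :
    -- (1) corner-free sets
    (∀ w : ℕ, ∃ c C : ℝ, 0 < c ∧ 0 < C ∧ ∀ (n M : ℕ) (A : Set ((Fin n → G) × (Fin n → G)))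
      (B : Fin M → Set ((Fin n → G) × (Fin n → G))), CornerFree A → (∀ x, x ∈ A ↔ ∃ i, x ∈ B i) →
      (∀ i, Recog w (Pairs (B i))) →
      (Nat.card A : ℝ) ≤ C * M * ((Fintype.card G : ℝ) ^ (2 * n)) ^ (1 - c)) ∧
    -- (2) sets without complete patterns of dimension `m`
    (∀ m w : ℕ, ∃ c C : ℝ, 0 < c ∧ 0 < C ∧ ∀ (n M : ℕ) (A : Set ((Fin n → G) × (Fin n → G)))
      (B : Fin M → Set ((Fin n → G) × (Fin n → G))), NoPattern m A →
      (∀ x, x ∈ A ↔ ∃ i, x ∈ B i) → (∀ i, Recog w (Pairs (B i))) →
      (Nat.card A : ℝ) ≤ C * M * ((Fintype.card G : ℝ) ^ (2 * n)) ^ (1 - c)) ∧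
    -- (3) functions of small rank for many blocks of pairs of coordinates
    (∀ m d s : ℕ, 1 ≤ d → 1 ≤ s → ∃ N : ℕ, 1 ≤ N ∧ ∀ (n t : ℕ) (K : Type) [Field K]
      (A : Set ((Fin n → G) × (Fin n → G))) (f : (Fin n → G × G) → K)
      (P : Fin t → Finset (Fin n)), (∀ z, f z ≠ 0 ↔ z ∈ Pairs A) →
      (∀ i j, i ≠ j → Disjoint (P i) (P j)) → (∀ j, N ≤ (P j).card) → (∀ j, Rk d f (P j)) →
      CornerFree A ∨ NoPattern m A → s ^ t * Nat.card A ≤ Fintype.card G ^ (2 * n)) := by
  classical
  refine ⟨fun w => ?_, fun m w => pairs_le G m w, ?_⟩
  · obtain ⟨c, C, hc, hC, h⟩ := pairs_le G 1 w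
    exact ⟨c, C, hc, hC, fun n M A B hA => h n M A B (noPattern_of_cornerFree hA)⟩
  · intro m d s hd hs
    obtain ⟨N₁, hN₁, h₁⟩ := blocks (G × G) 1 d s hd hs
    obtain ⟨N₂, hN₂, h₂⟩ := blocks (G × G) m d s hd hs
    refine ⟨max N₁ N₂, hN₁.trans (le_max_left _ _), ?_⟩
    intro n t K _ A f P hf hP hc hR hA
    have hcA : Nat.card A = (Pairs A).toFinset.card := by
      rw [card_pairs, Set.toFinset_card, Nat.card_eq_fintype_card]
    have hset : {z | f z ≠ 0} = Pairs A := Set.ext fun z => hf z
    have hZ : ∀ x ∈ (Pairs A).toFinset, f x ≠ 0 := fun x hx => by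
      rw [Set.mem_toFinset] at hx
      exact (hf x).2 hx
    have key : s ^ (univ : Finset (Fin t)).card * (Pairs A).toFinset.card ≤
        Fintype.card (Fin n → G × G) := by
      rcases hA with hA | hA
      · exact h₁ (Fin n) K f (Fin t) P univ hP (fun j _ => (le_max_left _ _).trans (hc j))
          (fun j _ => hR j) (by rw [hset]; exact sfree_of_noPattern (noPattern_of_cornerFree hA))
          _ hZ
      · exact h₂ (Fin n) K f (Fin t) P univ hP (fun j _ => (le_max_right _ _).trans (hc j))
          (fun j _ => hR j) (by rw [hset]; exact sfree_of_noPattern hA) _ hZ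
    rw [card_univ, Fintype.card_fin, Fintype.card_fun, Fintype.card_prod, Fintype.card_fin] at key
    rw [hcA]
    calc _ ≤ (Fintype.card G * Fintype.card G) ^ n := key
      _ = Fintype.card G ^ (2 * n) := by rw [pow_mul, sq]

end Pool.Agent.Results.MP_db4732_co.TensorNetworks
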